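import Pool.Agent.H90.RD.P2B
import Pool.Agent.H91.RD.Targets2

/-!
# Module P2G: the super-barrier, general version
(adapted from the module P2B of helper90)
-/

open MeasureTheory Set Filter Topology Metric

namespace Pool.Agent.H2.RD

open Pool.Agent.H91.RD
open Pool.Agent.H90.RD (ps ps_pos ps_lt_one ps_le_half ps_ge_half ps_ge ps_le_exp ps_anti brR brL
  brM bad_le yy rr Sf hasDerivAt_Sf_tau deriv_Sf deriv2_Sf contDiff_Sf continuousOn_Sf initial_ineq)

/-- the pointwise inequality -/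
theorem coreG (N : ℕ) {f G φ : ℝ → ℝ} {c lam K k μ η0 θ β C m1 : ℝ} (hN : 1 ≤ N)
    (H : Hyp f c lam φ K k μ η0 θ) (F : FrP c lam β C φ)
    (hGL : ∀ a b, |G a - G b| ≤ K * |a - b|) (hGf : ∀ s ∈ Icc (0 : ℝ) 1, G s = f s)
    (hGn : ∀ s t, 1 - η0 ≤ s → s ≤ t → t ≤ m1 → G t - G s ≤ -(μ * (t - s))) {a z0 κ y ρ r : ℝ} (ha1 : 1 ≤ a)
    (haN : (N : ℝ) ≤ a) (haε : c * N / (2 * a) ≤ (c ^ 2 / 4 - k) / 2 / 4) (hz0 : 0 < z0)
    (h1 : φ z0 ≤ η0 / 2) (h2 : 1 - η0 / 2 ≤ φ (-z0))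
    (h3 : c ^ 2 / 4 * ps c z0 ≤ (c ^ 2 / 4 - k) / 2 / 2) (hκ : 0 < κ)
    (hκ' : ∀ z ∈ Icc (-z0) z0, κ ≤ -deriv φ z)
    (hy : 1 ≤ y) (Y1 : 2 / η0 ≤ √y) (Y2 : 4 * C * (2 * N + 4 * a ^ 2) / ((c ^ 2 / 4 - k) / 2) ≤ √y)
    (Y3 : C * (N + 1) * Real.exp (-((lam - c / 2) * (y / 4))) ≤ (c ^ 2 / 4 - k) / 2 / (2 * √y))
    (Y4 : 2 * c * N / μ ≤ y) (Y5 : 8 * C * (N + a ^ 2) / μ ≤ √y) (Y6 : 4 * z0 ≤ y)
    (Y7 : 4 * C * (N + a ^ 2) / (K + c ^ 2 / 4 + c) ≤ √y)
    (hρ : y / 2 ≤ ρ) (hr : a ≤ r)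
    (hS : φ (ρ - r) + 1 / √y * ps c (ρ - r) < m1) :
    0 ≤ 2 * (K + c ^ 2 / 4 + c) / (κ * √y) * (-deriv φ (ρ - r)) +
      (G (φ (ρ - r)) - G (φ (ρ - r) + 1 / √y * ps c (ρ - r))) -
      |deriv (deriv φ) (ρ - r)| * (a ^ 2 / r ^ 2) -
      |deriv φ (ρ - r)| * ((N - 1) / r + a ^ 2 / r ^ 3) +
      1 / √y * (c ^ 2 / 2 * (ps c (ρ - r) * (1 - ps c (ρ - r))) -
        c ^ 2 / 4 * (ps c (ρ - r) * (1 - ps c (ρ - r)) * (1 - 2 * ps c (ρ - r))) *
          (1 - a ^ 2 / r ^ 2) -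
        c / 2 * (ps c (ρ - r) * (1 - ps c (ρ - r))) * ((N - 1) / r + a ^ 2 / r ^ 3)) := by
  have hc : 0 < c := H.front.cpos
  have hK : 0 < K := H.toLip.K0
  have hμ := H.mu0
  have hη := H.eta0
  have hC : 1 ≤ C := F.one
  set ε1 := (c ^ 2 / 4 - k) / 2 with hε1
  have hε : 0 < ε1 := by have := H.kc; rw [hε1]; linarith
  set s := √y with hs
  have hy0 : 0 < y := by linarith
  have hs1 : 1 ≤ s := by rw [hs]; exact Real.one_le_sqrt.2 hy
  have hs0 : 0 < s := by linarith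
  have hss : s * s = y := Real.mul_self_sqrt hy0.le
  set z := ρ - r with hz
  set p := ps c z with hp
  have hp0 : 0 < p := ps_pos c z
  have hp1 : p < 1 := ps_lt_one c z
  have hr1 : 1 ≤ r := ha1.trans hr
  have hr0 : 0 < r := by linarith
  have hN1 : (1 : ℝ) ≤ N := by exact_mod_cast hN
  -- `A` and `α`
  set α := a ^ 2 / r ^ 2 with hα
  have hα0 : 0 ≤ α := by positivity
  have hα1 : α ≤ 1 := by
    rw [hα, div_le_one (by positivity)]
    gcongr
  set A := (N - 1) / r + a ^ 2 / r ^ 3 with hA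
  have hA0 : 0 ≤ A := by
    have : (0 : ℝ) ≤ N - 1 := by linarith
    positivity
  have hAr : A ≤ N / r := by
    have e1 : a ^ 2 / r ^ 3 = α * (1 / r) := by
      rw [hα]; field_simp
    have e2 : α * (1 / r) ≤ 1 * (1 / r) := by gcongr
    rw [hA, e1]
    calc (N - 1) / r + α * (1 / r) ≤ (N - 1) / r + 1 * (1 / r) := by linarith
      _ = N / r := by field_simp; ring
  have hA1 : A ≤ 1 := by
    refine hAr.trans ?_
    rw [div_le_one hr0]
    linarith
  have hAa : c / 2 * A ≤ ε1 / 4 := by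
    have e1 : N / r ≤ N / a := by gcongr
    calc c / 2 * A ≤ c / 2 * (N / a) := by
          refine mul_le_mul_of_nonneg_left (hAr.trans e1) (by positivity)
      _ = c * N / (2 * a) := by field_simp
      _ ≤ ε1 / 4 := haε
  have hαr : α ≤ a ^ 2 / r := by
    rw [hα]
    gcongr
    exact le_self_pow₀ hr1 two_ne_zero
  set q := 1 / s with hq
  have hq0 : 0 < q := by positivity
  have hG0 : 0 ≤ p * (1 - p) := mul_nonneg hp0.le (by linarith)
  have hφ0 := F.pos z
  have hφ1 := F.lt z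
  have hd1 : deriv φ z < 0 := H.front.dec z
  have hanti : StrictAnti φ := strictAnti_of_deriv_neg H.front.dec
  have hfirst : 0 ≤ 2 * (K + c ^ 2 / 4 + c) / (κ * s) * (-deriv φ z) := by
    have : 0 < -deriv φ z := by linarith
    positivity
  have hqp : 0 < q * p := mul_pos hq0 hp0
  rcases le_total z0 z with hzR | hzR'
  · -- right
    have hz00 : 0 ≤ z := hz0.le.trans hzR
    have hp2 : p ≤ 1 / 2 := ps_le_half hc hz00
    have hφz : φ z ≤ η0 / 2 := (hanti.antitone hzR).trans h1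
    have hq1 : q ≤ η0 / 2 := by
      have hh : 2 ≤ s * η0 := by rwa [div_le_iff₀ hη] at Y1
      rw [hq, div_le_div_iff₀ hs0 (by norm_num)]
      linarith
    have hSle : φ z + q * p ≤ η0 := by
      have : q * p ≤ η0 / 2 * 1 := mul_le_mul hq1 hp1.le hp0.le (by linarith)
      linarith
    have hf : G (φ z + q * p) - G (φ z) ≤ k * (q * p) := by
      have := H.near0 (φ z) (φ z + q * p) hφ0.le (by linarith) hSle
      have he1 := H.eta1
      rw [hGf _ ⟨by linarith, by linarith⟩, hGf _ ⟨hφ0.le, hφ1.le⟩]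
      rwa [add_sub_cancel_left] at this
    have hpz : c ^ 2 / 4 * p ≤ ε1 / 2 :=
      (mul_le_mul_of_nonneg_left (ps_anti hc hzR) (by positivity)).trans h3
    have hbr := brR hc hε (show k = c ^ 2 / 4 - 2 * ε1 by rw [hε1]; ring) hp0 hp2 hα0 hα1 hA0
      hAa hpz
    -- bad terms
    have hbad : |deriv (deriv φ) z| * α + |deriv φ z| * A ≤ ε1 * (q * p) := by
      have hb1 := F.p1 z hz00
      have hb2 := F.p2 z hz00
      have hex := Real.exp_pos (-(lam * z))
      have hpe : 1 / 2 * Real.exp (-(c / 2 * z)) ≤ p := ps_ge hc hz00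
      have hexc := Real.exp_pos (-(c / 2 * z))
      have hsum : |deriv (deriv φ) z| * α + |deriv φ z| * A ≤
          C * Real.exp (-(lam * z)) * (α + A) := bad_le hb1 hb2 hα0 hA0
      refine hsum.trans ?_
      have hgoal : ε1 * (q * (1 / 2 * Real.exp (-(c / 2 * z)))) ≤ ε1 * (q * p) := by
        gcongr
      refine le_trans ?_ hgoal
      have hCe : 0 < C * Real.exp (-(lam * z)) := by positivity
      rcases le_total (ρ / 2) r with hrr | hrr
      · have e1 : Real.exp (-(lam * z)) ≤ Real.exp (-(c / 2 * z)) := by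
          refine Real.exp_le_exp.2 ?_
          have h9 : c / 2 * z ≤ lam * z := mul_le_mul_of_nonneg_right H.front.fast.le hz00
          linarith
        have hry : y / 4 ≤ r := by linarith
        have e2 : α + A ≤ 2 * (2 * N + 4 * a ^ 2) / y := by
          have e3 : α + A ≤ (a ^ 2 + N) / r := by
            rw [add_div]; linarith
          refine e3.trans ?_
          rw [div_le_div_iff₀ hr0 hy0]
          have h7 : 0 ≤ a ^ 2 := by positivity
          have h8 : (a ^ 2 + N) * (y / 4) ≤ (a ^ 2 + N) * r := by gcongr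
          have h9 : 0 ≤ a ^ 2 * r := by positivity
          linarith
        have e4 : 4 * C * (2 * N + 4 * a ^ 2) ≤ s * ε1 := by rwa [div_le_iff₀ hε] at Y2
        have e5 : C * (α + A) ≤ ε1 * (q * (1 / 2)) := by
          calc C * (α + A) ≤ C * (2 * (2 * N + 4 * a ^ 2) / y) := by gcongr
            _ ≤ ε1 * (q * (1 / 2)) := by
              rw [hq, ← hss]
              rw [show C * (2 * (2 * N + 4 * a ^ 2) / (s * s)) =
                (4 * C * (2 * N + 4 * a ^ 2)) / (2 * (s * s)) by ring]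
              rw [show ε1 * (1 / s * (1 / 2)) = (s * ε1) / (2 * (s * s)) by field_simp]
              gcongr
        calc C * Real.exp (-(lam * z)) * (α + A) = C * (α + A) * Real.exp (-(lam * z)) := by ring
          _ ≤ ε1 * (q * (1 / 2)) * Real.exp (-(c / 2 * z)) := by gcongr
          _ = _ := by ring
      · have hzz : y / 4 ≤ z := by rw [hz]; linarith
        have e1 : Real.exp (-(lam * z)) ≤ Real.exp (-((lam - c / 2) * (y / 4))) *
            Real.exp (-(c / 2 * z)) := by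
          rw [← Real.exp_add]
          refine Real.exp_le_exp.2 ?_
          have h9 : (lam - c / 2) * (y / 4) ≤ (lam - c / 2) * z :=
            mul_le_mul_of_nonneg_left hzz (by linarith [H.front.fast])
          linarith
        have e2 : α + A ≤ N + 1 := by linarith
        calc C * Real.exp (-(lam * z)) * (α + A) ≤
            C * (Real.exp (-((lam - c / 2) * (y / 4))) * Real.exp (-(c / 2 * z))) * (N + 1) := by
              gcongr
          _ = C * (N + 1) * Real.exp (-((lam - c / 2) * (y / 4))) * Real.exp (-(c / 2 * z)) := by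
              ring
          _ ≤ ε1 / (2 * s) * Real.exp (-(c / 2 * z)) := by gcongr
          _ = _ := by rw [hq]; field_simp
    have hm := mul_le_mul_of_nonneg_left hbr hq0.le
    have he : q * (p * (5 / 4 * ε1 + k)) = 5 / 4 * (ε1 * (q * p)) + k * (q * p) := by ring
    have hep : 0 < ε1 * (q * p) := mul_pos hε hqp
    rw [he] at hm
    linarith
  · rcases le_total z (-z0) with hzL | hzL'
    · -- left
      have hz00 : z ≤ 0 := by linarith
      have hp2 : 1 / 2 ≤ p := ps_ge_half hc hz00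
      have hφz : 1 - η0 / 2 ≤ φ z := h2.trans (hanti.antitone hzL)
      have hf : G (φ z + q * p) - G (φ z) ≤ -(μ * (q * p)) := by
        have := hGn (φ z) (φ z + q * p) (by linarith) (by linarith) hS.le
        rwa [add_sub_cancel_left] at this
      have hry : y / 2 ≤ r := by rw [hz] at hz00; linarith
      have hAy : c / 2 * A ≤ μ / 2 := by
        have e1 : A ≤ N / (y / 2) := hAr.trans (by gcongr)
        have e2 : 2 * c * N ≤ y * μ := by rwa [div_le_iff₀ hμ] at Y4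
        calc c / 2 * A ≤ c / 2 * (N / (y / 2)) := by gcongr
          _ = c * N / y := by field_simp
          _ ≤ μ / 2 := by rw [div_le_div_iff₀ hy0 (by norm_num)]; linarith
      have hbr := brL hc hμ hp0 hp1 hp2 hα1 hAy
      have hbad : |deriv (deriv φ) z| * α + |deriv φ z| * A ≤ μ / 4 * q := by
        have hb1 := F.d1 z
        have hb2 := F.d2 z
        have e0 : |deriv (deriv φ) z| * α + |deriv φ z| * A ≤ C * (α + A) :=
          bad_le hb1 hb2 hα0 hA0
        refine e0.trans ?_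
        have e3 : α + A ≤ (N + a ^ 2) / (y / 2) := by
          have e4 : α + A ≤ (N + a ^ 2) / r := by rw [add_div]; linarith
          exact e4.trans (by gcongr)
        have e5 : 8 * C * (N + a ^ 2) ≤ s * μ := by rwa [div_le_iff₀ hμ] at Y5
        calc C * (α + A) ≤ C * ((N + a ^ 2) / (y / 2)) := by gcongr
          _ = (8 * C * (N + a ^ 2)) / (4 * (s * s)) := by rw [hss]; field_simp; ring
          _ ≤ (s * μ) / (4 * (s * s)) := by gcongr
          _ = μ / 4 * q := by rw [hq]; field_simp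
      have hm := mul_le_mul_of_nonneg_left hbr hq0.le
      have hqh : q * (1 / 2) ≤ q * p := by gcongr
      have hqm : μ * (q * (1 / 2)) ≤ μ * (q * p) := by gcongr
      have he : q * -(μ / 2 * p) = -(μ * (q * p) / 2) := by ring
      rw [he] at hm
      linarith
    · -- middle
      have hzI : z ∈ Icc (-z0) z0 := ⟨hzL', hzR'⟩
      have hk := hκ' z hzI
      set M := K + c ^ 2 / 4 + c with hM
      have hM0 : 0 < M := by positivity
      have hfst : 2 * M * q ≤ 2 * M / (κ * s) * (-deriv φ z) := by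
        calc 2 * M * q = 2 * M / (κ * s) * κ := by rw [hq]; field_simp
          _ ≤ _ := by gcongr
      have hf : -(K * q) ≤ G (φ z) - G (φ z + q * p) := by
        have h5 := hGL (φ z + q * p) (φ z)
        rw [add_sub_cancel_left, abs_of_pos hqp] at h5
        have h6 := (abs_le.1 h5).2
        have h7 : K * (q * p) ≤ K * q := by
          have : q * p ≤ q * 1 := mul_le_mul_of_nonneg_left hp1.le hq0.le
          rw [mul_one] at this
          gcongr
        linarith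
      have hbr := brM hc hp0 hp1 hα0 hα1 hA0 hA1
      have hbad : |deriv (deriv φ) z| * α + |deriv φ z| * A ≤ M * q := by
        have hb1 := F.d1 z
        have hb2 := F.d2 z
        have e0 : |deriv (deriv φ) z| * α + |deriv φ z| * A ≤ C * (α + A) :=
          bad_le hb1 hb2 hα0 hA0
        refine e0.trans ?_
        have hry : y / 4 ≤ r := by
          rw [hz] at hzR'; linarith
        have e3 : α + A ≤ (N + a ^ 2) / (y / 4) := by
          have e4 : α + A ≤ (N + a ^ 2) / r := by rw [add_div]; linarith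
          exact e4.trans (by gcongr)
        have e5 : 4 * C * (N + a ^ 2) ≤ s * M := by rwa [div_le_iff₀ hM0] at Y7
        calc C * (α + A) ≤ C * ((N + a ^ 2) / (y / 4)) := by gcongr
          _ = (4 * C * (N + a ^ 2)) / (s * s) := by rw [hss]; field_simp
          _ ≤ (s * M) / (s * s) := by gcongr
          _ = M * q := by rw [hq]; field_simp
      have hm := mul_le_mul_of_nonneg_left hbr hq0.le
      have he : q * -(c ^ 2 / 4 + c) = -(M * q) + K * q := by rw [hM]; ring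
      rw [he] at hm
      linarith

/-- the differential inequality -/
theorem super_ineqG (N : ℕ) {f G φ : ℝ → ℝ} {c lam K k μ η0 θ β C m1 : ℝ} (hN : 1 ≤ N)
    (H : Hyp f c lam φ K k μ η0 θ) (F : FrP c lam β C φ)
    (hGL : ∀ a b, |G a - G b| ≤ K * |a - b|) (hGf : ∀ s ∈ Icc (0 : ℝ) 1, G s = f s)
    (hGn : ∀ s t, 1 - η0 ≤ s → s ≤ t → t ≤ m1 → G t - G s ≤ -(μ * (t - s))) {a z0 κ ρ0 τ r : ℝ} (ha1 : 1 ≤ a)
    (haN : (N : ℝ) ≤ a) (haε : c * N / (2 * a) ≤ (c ^ 2 / 4 - k) / 2 / 4) (hz0 : 0 < z0)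
    (h1 : φ z0 ≤ η0 / 2) (h2 : 1 - η0 / 2 ≤ φ (-z0))
    (h3 : c ^ 2 / 4 * ps c z0 ≤ (c ^ 2 / 4 - k) / 2 / 2) (hκ : 0 < κ)
    (hκ' : ∀ z ∈ Icc (-z0) z0, κ ≤ -deriv φ z)
    (hy : 1 ≤ yy c ρ0 τ) (Y1 : 2 / η0 ≤ √(yy c ρ0 τ))
    (Y2 : 4 * C * (2 * N + 4 * a ^ 2) / ((c ^ 2 / 4 - k) / 2) ≤ √(yy c ρ0 τ))
    (Y3 : C * (N + 1) * Real.exp (-((lam - c / 2) * (yy c ρ0 τ / 4))) ≤
      (c ^ 2 / 4 - k) / 2 / (2 * √(yy c ρ0 τ)))
    (Y4 : 2 * c * N / μ ≤ yy c ρ0 τ) (Y5 : 8 * C * (N + a ^ 2) / μ ≤ √(yy c ρ0 τ))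
    (Y6 : 4 * z0 ≤ yy c ρ0 τ)
    (Y7 : 4 * C * (N + a ^ 2) / (K + c ^ 2 / 4 + c) ≤ √(yy c ρ0 τ))
    (hρ : yy c ρ0 τ / 2 ≤ rr c (4 * (K + c ^ 2 / 4 + c) / (κ * c)) ρ0 τ) (hr : a ≤ r)
    (hS : Sf φ c (4 * (K + c ^ 2 / 4 + c) / (κ * c)) ρ0 τ r < m1) :
    radL N a (Sf φ c (4 * (K + c ^ 2 / 4 + c) / (κ * c)) ρ0 τ) r +
      G (Sf φ c (4 * (K + c ^ 2 / 4 + c) / (κ * c)) ρ0 τ r) ≤
      deriv (fun s => Sf φ c (4 * (K + c ^ 2 / 4 + c) / (κ * c)) ρ0 s r) τ := by
  have hc : 0 < c := H.front.cpos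
  have hK : 0 < K := H.toLip.K0
  have hy0 : 0 < yy c ρ0 τ := by linarith
  have hmain := coreG N hN H F hGL hGf hGn ha1 haN haε hz0 h1 h2 h3 hκ hκ' hy Y1 Y2 Y3 Y4 Y5 Y6 Y7 hρ hr hS
  rw [(hasDerivAt_Sf_tau H.front.c2 hy0 r).deriv, radL, deriv2_Sf H.front.c2, deriv_Sf H.front.c2]
  have hode := H.front.eqn (rr c (4 * (K + c ^ 2 / 4 + c) / (κ * c)) ρ0 τ - r)
  rw [← hGf _ ⟨(F.pos _).le, (F.lt _).le⟩] at hode
  simp only [Sf]
  set M := K + c ^ 2 / 4 + c with hM
  have hM0 : 0 < M := by positivity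
  set B := 4 * M / (κ * c) with hB
  have hB0 : 0 < B := by positivity
  set s := √(yy c ρ0 τ) with hs
  have hs0 : 0 < s := Real.sqrt_pos.2 hy0
  set z := rr c B ρ0 τ - r with hz
  set p := ps c z with hp
  have hp0 : 0 < p := ps_pos c z
  have hp1 : p < 1 := ps_lt_one c z
  have hr1 : 1 ≤ r := ha1.trans hr
  have hr0 : 0 < r := by linarith
  have hN1 : (1 : ℝ) ≤ N := by exact_mod_cast hN
  set α := a ^ 2 / r ^ 2 with hα
  have hα0 : 0 ≤ α := by positivity
  set A := (N - 1) / r + a ^ 2 / r ^ 3 with hA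
  have hA0 : 0 ≤ A := by
    have : (0 : ℝ) ≤ N - 1 := by linarith
    positivity
  set φ1 := deriv φ z with hφ1
  set φ2 := deriv (deriv φ) z with hφ2
  set F0 := G (φ z) with hF0
  set F1 := G (φ z + 1 / s * p) with hF1
  have e1 : -(|φ2| * α) ≤ φ2 * α := by
    have := mul_le_mul_of_nonneg_right (neg_abs_le φ2) hα0
    linarith
  have e2 : -(|φ1| * A) ≤ φ1 * A := by
    have := mul_le_mul_of_nonneg_right (neg_abs_le φ1) hA0
    linarith
  have e3 : 0 ≤ c / (2 * s) / s ^ 2 * p := by positivity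
  have hG0 : 0 ≤ p * (1 - p) := mul_nonneg hp0.le (by linarith)
  have e4 : 0 ≤ 1 / s * (c / 2 * (p * (1 - p))) * (c * B / (2 * s)) := by positivity
  have e5 : 2 * M / (κ * s) = c * B / (2 * s) := by
    rw [hB]; field_simp; ring
  rw [e5] at hmain
  have hode' : φ2 = -(c * φ1) - F0 := by linarith
  -- an identity
  have key : (φ1 * (-c - c * B / (2 * s)) + (c / (2 * s) / s ^ 2 * p +
      1 / s * (-(c / 2 * (p * (1 - p))) * (-c - c * B / (2 * s))))) -
      ((φ2 + 1 / s * (c ^ 2 / 4 * (p * (1 - p) * (1 - 2 * p)))) * (1 - α) +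
        (-φ1 + 1 / s * (c / 2 * (p * (1 - p)))) * A + F1) =
      (c * B / (2 * s) * (-φ1) + (F0 - F1) - |φ2| * α - |φ1| * A +
      1 / s * (c ^ 2 / 2 * (p * (1 - p)) -
        c ^ 2 / 4 * (p * (1 - p) * (1 - 2 * p)) * (1 - α) -
        c / 2 * (p * (1 - p)) * A)) + (φ2 * α + |φ2| * α) + (φ1 * A + |φ1| * A) +
        c / (2 * s) / s ^ 2 * p + 1 / s * (c / 2 * (p * (1 - p))) * (c * B / (2 * s)) +
        (-(φ2 + c * φ1 + F0)) := by ring
  have hode0 : φ2 + c * φ1 + F0 = 0 := by linarith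
  rw [hode0] at key
  linarith

theorem p2g : T_P2G := by
  intro N f G φ c lam K k μ η0 θ β C m1 hN H F hGL hGf hm1 hGn CT η' D' hCT hη' hD'
  have hc : 0 < c := H.front.cpos
  have hK : 0 < K := H.toLip.K0
  have hμ := H.mu0
  have hη := H.eta0
  have hC : 1 ≤ C := F.one
  have hβ := F.b0
  have hlam : 0 < lam := by have := H.front.fast; linarith
  have hN1 : (1 : ℝ) ≤ N := by exact_mod_cast hN
  set ε1 := (c ^ 2 / 4 - k) / 2 with hε1
  have hε : 0 < ε1 := by have := H.kc; rw [hε1]; linarith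
  set M := K + c ^ 2 / 4 + c with hM
  have hM0 : 0 < M := by positivity
  -- the constant `a`
  set a : ℝ := N + 2 * c * N / ε1 + 1 with ha
  have hx : 0 ≤ 2 * c * N / ε1 := by positivity
  have ha1 : 1 ≤ a := by linarith
  have haN : (N : ℝ) ≤ a := by linarith
  have haε : c * N / (2 * a) ≤ ε1 / 4 := by
    have h1 : 2 * c * N / ε1 ≤ a := by linarith
    rw [div_le_iff₀ hε] at h1
    rw [div_le_div_iff₀ (by positivity) (by norm_num)]
    linarith
  -- the constant `z0`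
  have hps0 : Tendsto (fun z => c ^ 2 / 4 * ps c z) atTop (𝓝 0) := by
    have h1 : Tendsto (fun z : ℝ => Real.exp (-(c / 2 * z))) atTop (𝓝 0) :=
      Real.tendsto_exp_neg_atTop_nhds_zero.comp (tendsto_id.const_mul_atTop (by positivity))
    have h2 : Tendsto (ps c) atTop (𝓝 0) :=
      squeeze_zero (fun z => (ps_pos c z).le) (fun z => ps_le_exp) h1
    simpa using h2.const_mul (c ^ 2 / 4)
  obtain ⟨z0, hz0, h1, h2, h3⟩ : ∃ z0, 0 < z0 ∧ φ z0 ≤ η0 / 2 ∧ 1 - η0 / 2 ≤ φ (-z0) ∧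
      c ^ 2 / 4 * ps c z0 ≤ ε1 / 2 := by
    have e1 : ∀ᶠ z : ℝ in atTop, 0 < z := eventually_gt_atTop 0
    have e2 : ∀ᶠ z : ℝ in atTop, φ z < η0 / 2 := H.front.right.eventually (gt_mem_nhds (by linarith))
    have e3 : ∀ᶠ z : ℝ in atTop, 1 - η0 / 2 < φ (-z) :=
      (H.front.left.comp tendsto_neg_atTop_atBot).eventually (lt_mem_nhds (by linarith))
    have e4 : ∀ᶠ z : ℝ in atTop, c ^ 2 / 4 * ps c z < ε1 / 2 :=
      hps0.eventually (gt_mem_nhds (by linarith))
    obtain ⟨z0, h⟩ := (e1.and (e2.and (e3.and e4))).exists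
    exact ⟨z0, h.1, h.2.1.le, h.2.2.1.le, h.2.2.2.le⟩
  -- the constant `κ`
  have hC1 : Continuous (deriv φ) := by
    have : ContDiff ℝ (1 + 1) φ := by rw [one_add_one_eq_two]; exact H.front.c2
    exact (contDiff_succ_iff_deriv.1 this).2.2.continuous
  obtain ⟨zm, hzm, hmin⟩ := (isCompact_Icc (a := -z0) (b := z0)).exists_isMinOn
    ⟨0, by constructor <;> linarith⟩ hC1.neg.continuousOn
  set κ := -deriv φ zm with hκd
  have hκ : 0 < κ := by have := H.front.dec zm; linarith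
  have hκ' : ∀ z ∈ Icc (-z0) z0, κ ≤ -deriv φ z := fun z hz => hmin hz
  set B := 4 * M / (κ * c) with hB
  have hB0 : 0 < B := by positivity
  -- the constant `ymin`
  have hsq : ∀ X : ℝ, ∀ᶠ y : ℝ in atTop, X ≤ √y := fun X =>
    Real.tendsto_sqrt_atTop.eventually_ge_atTop X
  have hid : ∀ X : ℝ, ∀ᶠ y : ℝ in atTop, X ≤ y := fun X => eventually_ge_atTop X
  have hdl : 0 < lam - c / 2 := by have := H.front.fast; linarith
  have hY3 : ∀ᶠ y : ℝ in atTop, C * (N + 1) * Real.exp (-((lam - c / 2) * (y / 4))) ≤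
      ε1 / (2 * √y) := by
    set D : ℝ := (lam - c / 2) / 8 with hD
    have hD0 : 0 < D := by positivity
    filter_upwards [hid 1, hid (2 * (C * (N + 1)) / (D ^ 2 * ε1))] with y hy1 hy2
    have hy0 : 0 < y := by linarith
    have e1 : Real.exp (-((lam - c / 2) * (y / 4))) ≤ 1 / (D * y) ^ 2 := by
      have e2 : (lam - c / 2) * (y / 4) = D * y + D * y := by rw [hD]; ring
      rw [e2, Real.exp_neg, Real.exp_add, ← one_div, sq]
      have e3 : D * y ≤ Real.exp (D * y) := by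
        have := Real.add_one_le_exp (D * y); linarith
      have e4 : 0 < D * y := by positivity
      gcongr
    have e5 : √y ≤ y := by
      rw [Real.sqrt_le_left hy0.le]
      exact le_self_pow₀ hy1 two_ne_zero
    have hsy : 0 < √y := Real.sqrt_pos.2 hy0
    rw [div_le_iff₀ (by positivity)] at hy2
    calc C * (N + 1) * Real.exp (-((lam - c / 2) * (y / 4))) ≤ C * (N + 1) * (1 / (D * y) ^ 2) := by
          gcongr
      _ = (2 * (C * (N + 1))) / (2 * (D ^ 2 * y ^ 2)) := by field_simp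
      _ ≤ (y * (D ^ 2 * ε1)) / (2 * (D ^ 2 * y ^ 2)) := by gcongr
      _ = ε1 / (2 * y) := by field_simp
      _ ≤ ε1 / (2 * √y) := by gcongr
  have hfin : ∀ᶠ y : ℝ in atTop, C * Real.exp (-(lam * (y / 2 - a))) ≤ η' / 2 := by
    have e1 : Tendsto (fun y : ℝ => lam * (y / 2 - a)) atTop atTop := by
      refine Tendsto.const_mul_atTop hlam ?_
      exact tendsto_atTop_add_const_right _ _ (tendsto_id.atTop_div_const (by norm_num))
    have e2 : Tendsto (fun y : ℝ => C * Real.exp (-(lam * (y / 2 - a)))) atTop (𝓝 0) := by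
      simpa using (Real.tendsto_exp_neg_atTop_nhds_zero.comp e1).const_mul C
    exact (e2.eventually (gt_mem_nhds (show (0 : ℝ) < η' / 2 by linarith))).mono fun y h => h.le
  obtain ⟨ymin, hymin⟩ := eventually_atTop.1 ((hid 1).and ((hsq (2 / η0)).and
    ((hsq (4 * C * (2 * N + 4 * a ^ 2) / ε1)).and (hY3.and ((hid (2 * c * N / μ)).and
    ((hsq (8 * C * (N + a ^ 2) / μ)).and ((hid (4 * z0)).and
    ((hsq (4 * C * (N + a ^ 2) / M)).and ((hid (2 * a)).and (hfin.and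
    (hsq (2 / η'))))))))))))
  -- `K6` and `K5`
  set L : ℝ := 2 * B + √c + √|ymin| + 1 with hL
  have hsc : 0 < √c := Real.sqrt_pos.2 hc
  have hscc : √c * √c = c := Real.mul_self_sqrt hc.le
  have hym0 : 0 ≤ √|ymin| := Real.sqrt_nonneg _
  have hL1 : 1 ≤ L := by linarith
  have hLy : ymin ≤ L ^ 2 := by
    calc ymin ≤ |ymin| := le_abs_self _
      _ = √|ymin| ^ 2 := (Real.sq_sqrt (abs_nonneg _)).symm
      _ ≤ L ^ 2 := by gcongr; linarith
  have hLB : 2 * B * (√c + L) ≤ L ^ 2 := by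
    have e1 : √c ≤ L - 2 * B := by linarith
    have e2 : 2 * B ≤ L := by linarith
    have e3 : 2 * B * √c ≤ L * (L - 2 * B) := mul_le_mul e2 e1 hsc.le (by linarith)
    have e4 : 2 * B * (√c + L) = 2 * B * √c + 2 * B * L := by ring
    have e5 : L * (L - 2 * B) = L ^ 2 - 2 * B * L := by ring
    linarith
  set K7 : ℝ := 2 / c * (2 * CT + c * C / β) * (√c + L) with hK7
  have hK70 : 0 < K7 := by positivity
  set K8 : ℝ := (4 * C / β + 4 * D') * (√c + L) + D' with hK8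
  have hK80 : 0 < K8 := by positivity
  have hLsq : 1 ≤ L ^ 2 := one_le_pow₀ hL1
  refine ⟨a, L ^ 2 + K7 + K8, ha1, by linarith, ?_⟩
  intro σ hσ R hR
  set w := 1 + √σ with hw
  have hsσ : 0 < √σ := Real.sqrt_pos.2 hσ
  have hw1 : 1 ≤ w := by linarith
  have hσw : σ ≤ w ^ 2 := by
    have : √σ ^ 2 = σ := Real.sq_sqrt hσ.le
    have e : (1 + √σ) ^ 2 = 1 + 2 * √σ + √σ ^ 2 := by ring
    rw [hw, e]
    linarith
  set ρ0 : ℝ := c * σ + L ^ 2 * w with hρ0
  have hρ01 : 1 ≤ ρ0 := by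
    have : 0 < c * σ := by positivity
    have h5 : 1 ≤ L ^ 2 * w := one_le_mul_of_one_le_of_one_le hLsq hw1
    linarith
  have hsρ : √ρ0 ≤ (√c + L) * w := by
    rw [Real.sqrt_le_left (by positivity)]
    have e1 : c * σ ≤ c * w ^ 2 := by gcongr
    have e2 : L ^ 2 * w ≤ L ^ 2 * w ^ 2 := by
      gcongr
      exact le_self_pow₀ hw1 two_ne_zero
    have e3 : 0 ≤ √c * L * w ^ 2 := by positivity
    have e4 : ((√c + L) * w) ^ 2 = c * w ^ 2 + 2 * (√c * L * w ^ 2) + L ^ 2 * w ^ 2 := by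
      rw [mul_pow, add_sq]
      have : √c ^ 2 = c := Real.sq_sqrt hc.le
      rw [this]; ring
    rw [e4]
    linarith
  have hy : ∀ τ ∈ Icc 0 σ, L ^ 2 * w ≤ yy c ρ0 τ := by
    intro τ hτ
    have : c * τ ≤ c * σ := by gcongr; exact hτ.2
    unfold yy
    linarith
  have hLw : L ^ 2 ≤ L ^ 2 * w := le_mul_of_one_le_right (by positivity) hw1
  have hyg : ∀ τ ∈ Icc 0 σ, ymin ≤ yy c ρ0 τ := fun τ hτ => hLy.trans (hLw.trans (hy τ hτ))
  have hyp : ∀ τ ∈ Icc 0 σ, 0 < yy c ρ0 τ := fun τ hτ => by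
    have := (hymin _ (hyg τ hτ)).1
    linarith
  have hrho : ∀ τ ∈ Icc 0 σ, yy c ρ0 τ / 2 ≤ rr c B ρ0 τ := by
    intro τ hτ
    have e1 : 2 * B * √ρ0 ≤ yy c ρ0 τ := by
      calc 2 * B * √ρ0 ≤ 2 * B * ((√c + L) * w) := by gcongr
        _ = 2 * B * (√c + L) * w := by ring
        _ ≤ L ^ 2 * w := by gcongr
        _ ≤ _ := hy τ hτ
    have e2 : 0 ≤ B * √(yy c ρ0 τ) := by positivity
    unfold rr
    linarith
  have hsρ1 : 1 ≤ √ρ0 := Real.one_le_sqrt.2 hρ01
  have hsρ0 : 0 < √ρ0 := by linarith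
  have hx1 : 0 < 4 * C * √ρ0 := by positivity
  have hlog1 : 0 ≤ Real.log (4 * C * √ρ0) := by
    have : 1 ≤ C * √ρ0 := one_le_mul_of_one_le_of_one_le hC hsρ1
    refine Real.log_nonneg ?_
    linarith
  have hlog2 : Real.log (4 * C * √ρ0) ≤ 4 * C * √ρ0 := by
    have := Real.log_le_sub_one_of_pos hx1
    linarith
  have hlog3 : Real.log (1 / (1 / (4 * √ρ0))) ≤ 4 * √ρ0 := by
    rw [one_div_one_div]
    have := Real.log_le_sub_one_of_pos (show 0 < 4 * √ρ0 by positivity)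
    linarith
  refine ⟨Sf φ c B ρ0, 1 / (4 * √ρ0), ρ0 + 1 / β * Real.log (4 * C * √ρ0), by positivity, ?_, ?_,
    ?_, continuousOn_Sf H.front.c2 hyp, fun τ _ => contDiff_Sf H.front.c2 τ,
    fun τ hτ r => (hasDerivAt_Sf_tau H.front.c2 (hyp τ hτ) r).differentiableAt, ?_, ?_, ?_, ?_, ?_⟩
  · rw [div_le_one (by positivity)]
    linarith
  · have e1 : 0 ≤ 1 / β * Real.log (4 * C * √ρ0) := by positivity
    have e2 : 0 ≤ L ^ 2 * w := by positivity
    linarith
  · have e1 : 1 / β * Real.log (4 * C * √ρ0) ≤ 1 / β * (4 * C * ((√c + L) * w)) := by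
      gcongr
      exact hlog2.trans (by gcongr)
    have e2 : D' * (1 + Real.log (1 / (1 / (4 * √ρ0)))) ≤ D' * (w + 4 * ((√c + L) * w)) := by
      gcongr
      exact hlog3.trans (by gcongr)
    have e3 : 1 / β * (4 * C * ((√c + L) * w)) + D' * (w + 4 * ((√c + L) * w)) = K8 * w := by
      rw [hK8]
      field_simp
      ring
    have e4 : 0 ≤ K7 * w := by positivity
    rw [hρ0]
    linarith
  · intro τ hτ r
    have e1 := F.pos (rr c B ρ0 τ - r)
    have e2 := ps_pos c (rr c B ρ0 τ - r)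
    have e3 : 0 ≤ 1 / √(yy c ρ0 τ) := by positivity
    unfold Sf
    positivity
  · intro τ hτ r hr hS
    obtain ⟨y1, Y1, Y2, Y3, Y4, Y5, Y6, Y7, -, -, -⟩ := hymin _ (hyg τ hτ)
    exact super_ineqG N hN H F hGL hGf hGn ha1 haN haε hz0 h1 h2 h3 hκ hκ' y1 Y1 Y2 Y3 Y4 Y5 Y6 Y7
      (hrho τ hτ) hr hS
  · intro r
    have e0 : yy c ρ0 0 = ρ0 := by unfold yy; ring
    have e1 : rr c B ρ0 0 = ρ0 := by unfold rr; rw [e0]; ring
    unfold Sf
    rw [e0, e1]
    refine initial_ineq H F hCT hρ01 ?_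
    have e2 : K7 * w ≤ R - ρ0 := by
      have : 0 ≤ K8 * w := by positivity
      rw [hρ0]; linarith
    have e3 : 2 * CT * √ρ0 + c / 2 * (2 * C * √ρ0 / β) = (2 * CT + c * C / β) * √ρ0 := by
      field_simp
    rw [e3]
    calc (2 * CT + c * C / β) * √ρ0 ≤ (2 * CT + c * C / β) * ((√c + L) * w) := by gcongr
      _ = c / 2 * (K7 * w) := by rw [hK7]; field_simp
      _ ≤ c / 2 * (R - ρ0) := by gcongr
  · have hτ : σ ∈ Icc 0 σ := ⟨hσ.le, le_rfl⟩
    obtain ⟨y1, -, -, -, -, -, -, -, Y8, -, Y10⟩ := hymin _ (hyg σ hτ)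
    obtain ⟨-, -, -, -, -, -, -, -, -, Y9, -⟩ := hymin _ (hyg σ hτ)
    have hz : yy c ρ0 σ / 2 - a ≤ rr c B ρ0 σ - a := by linarith [hrho σ hτ]
    have hz0' : 0 ≤ rr c B ρ0 σ - a := by linarith
    have e1 := F.p0 _ hz0'
    have e2 : Real.exp (-(lam * (rr c B ρ0 σ - a))) ≤ Real.exp (-(lam * (yy c ρ0 σ / 2 - a))) := by
      refine Real.exp_le_exp.2 ?_
      have : lam * (yy c ρ0 σ / 2 - a) ≤ lam * (rr c B ρ0 σ - a) := by gcongr
      linarith
    have e3 : C * Real.exp (-(lam * (rr c B ρ0 σ - a))) ≤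
        C * Real.exp (-(lam * (yy c ρ0 σ / 2 - a))) := by gcongr
    have hs0 : 0 < √(yy c ρ0 σ) := Real.sqrt_pos.2 (hyp σ hτ)
    have e4 : 1 / √(yy c ρ0 σ) ≤ η' / 2 := by
      rw [div_le_iff₀ hη'] at Y10
      rw [div_le_div_iff₀ hs0 (by norm_num)]
      linarith
    have e5 : 1 / √(yy c ρ0 σ) * ps c (rr c B ρ0 σ - a) ≤ 1 / √(yy c ρ0 σ) * 1 := by
      gcongr
      exact (ps_lt_one _ _).le
    unfold Sf
    linarith
  · intro τ hτ r hr
    have hyτ := hyp τ hτ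
    have hs0 : 0 < √(yy c ρ0 τ) := Real.sqrt_pos.2 hyτ
    have hyle : yy c ρ0 τ ≤ ρ0 := by
      unfold yy
      have : 0 ≤ c * τ := mul_nonneg hc.le hτ.1
      linarith
    have hsle : √(yy c ρ0 τ) ≤ √ρ0 := Real.sqrt_le_sqrt hyle
    set z := rr c B ρ0 τ - r with hz
    have hzle : z ≤ -(1 / β * Real.log (4 * C * √ρ0)) := by
      have e1 : 0 ≤ B * (√ρ0 - √(yy c ρ0 τ)) := mul_nonneg hB0.le (by linarith)
      rw [hz]
      unfold rr
      have e2 : yy c ρ0 τ = ρ0 - c * τ := rfl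
      linarith
    have hz00 : z ≤ 0 := by
      have : 0 ≤ 1 / β * Real.log (4 * C * √ρ0) := by positivity
      linarith
    have e1 := F.n0 z hz00
    have e2 : C * Real.exp (β * z) ≤ 1 / (4 * √ρ0) := by
      have e3 : β * z ≤ -Real.log (4 * C * √ρ0) := by
        have : β * z ≤ β * (-(1 / β * Real.log (4 * C * √ρ0))) := by gcongr
        refine this.trans (le_of_eq ?_)
        field_simp
      have e4 : Real.exp (β * z) ≤ 1 / (4 * C * √ρ0) := by
        calc Real.exp (β * z) ≤ Real.exp (-Real.log (4 * C * √ρ0)) := Real.exp_le_exp.2 e3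
          _ = 1 / (4 * C * √ρ0) := by rw [Real.exp_neg, Real.exp_log hx1, one_div]
      calc C * Real.exp (β * z) ≤ C * (1 / (4 * C * √ρ0)) := by gcongr
        _ = 1 / (4 * √ρ0) := by field_simp
    have e5 : 2 * (1 / (4 * √ρ0)) ≤ 1 / √(yy c ρ0 τ) * ps c z := by
      have e6 := ps_ge_half hc hz00
      calc 2 * (1 / (4 * √ρ0)) = 1 / √ρ0 * (1 / 2) := by field_simp; norm_num
        _ ≤ 1 / √(yy c ρ0 τ) * ps c z := by gcongr
    unfold Sf
    rw [← hz]
    linarith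

end Pool.Agent.H2.RD
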